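import Mathlib

/-!
# MP_c5ead3_nt: a finite check of the divisor sums of small odd squares
-/

set_option autoImplicit false

namespace SmallPF

/-- The sum of `d + N / d` over the divisors `d ≤ b` of `N`. -/
def dsum (N : ℕ) : ℕ → ℕ
  | 0 => 0
  | b + 1 => dsum N b + cond (Nat.beq (N % (b + 1)) 0) ((b + 1) + N / (b + 1)) 0

/-- No `(2 ^ j - 1) * t + 1` with `j ≤ J` is equal to `N`. -/
def noj (N t : ℕ) : ℕ → Bool
  | 0 => true
  | j + 1 => noj N t j && !(Nat.beq ((2 ^ (j + 1) - 1) * t + 1) N)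

/-- The check for all odd `m = 2 l + 3` with `l < L`. -/
def chk : ℕ → Bool
  | 0 => true
  | l + 1 =>
    chk l && noj ((2 * l + 3) * (2 * l + 3))
      (dsum ((2 * l + 3) * (2 * l + 3)) (2 * l + 3) - (2 * l + 3) - (2 * l + 3) * (2 * l + 3)) 16

theorem chk_ok : chk 127 = true := by decide +kernel

end SmallPF
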