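import Mathlib
import Pool.Agent.Lib.MP_c5ead3_ntS.Check
import Pool.Agent.Results.MP_c5ead3_nt.ImageIsAlmostPerfect

/-!
# MP_c5ead3_nt: almost perfect numbers up to `2 ^ 16`, and the multipliers `a n` for the integers `n`
with a small prime factor

An almost perfect number which is not a power of two is of the form `2 ^ i * m ^ 2` with `m ≥ 3` odd
and `(2 ^ (i + 1) - 1) * (σ (m ^ 2) - m ^ 2) + 1 = m ^ 2`.
-/

set_option autoImplicit false

namespace SmallPF

open Finset Pool.Agent.Results.MP_c5ead3_nt.ImageIsAlmostPerfect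

theorem dsum_eq (N b : ℕ) :
    dsum N b = ∑ d ∈ range b, if (d + 1) ∣ N then (d + 1) + N / (d + 1) else 0 := by
  induction b with
  | zero => simp [dsum]
  | succ b ih =>
    rw [Finset.sum_range_succ, ← ih, dsum]
    congr 1
    by_cases h : (b + 1) ∣ N
    · have h1 : N % (b + 1) = 0 := Nat.mod_eq_zero_of_dvd h
      rw [if_pos h, h1]
      rfl
    · have h1 : N % (b + 1) ≠ 0 := fun hc => h (Nat.dvd_of_mod_eq_zero hc)
      rw [if_neg h]
      have h2 : Nat.beq (N % (b + 1)) 0 = false := by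
        rw [Bool.eq_false_iff]
        intro hc
        exact h1 (Nat.eq_of_beq_eq_true hc)
      rw [h2]
      rfl

theorem dsum_sq {m : ℕ} (hm : 1 ≤ m) : dsum (m * m) m = sig (m * m) + m := by
  have hN : m * m ≠ 0 := by positivity
  have e1 : dsum (m * m) m =
      ∑ d ∈ (m * m).divisors, if d ≤ m then d + m * m / d else 0 := by
    rw [dsum_eq, ← Finset.sum_filter, ← Finset.sum_filter]
    refine Finset.sum_bij (fun d _ => d + 1) ?_ ?_ ?_ ?_
    · intro d hd
      rw [mem_filter, mem_range] at hd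
      rw [mem_filter, Nat.mem_divisors]
      exact ⟨⟨hd.2, hN⟩, by omega⟩
    · intro d _ d' _ h
      omega
    · intro d hd
      rw [mem_filter, Nat.mem_divisors] at hd
      have h0 : d ≠ 0 := by
        rintro rfl
        exact hN (zero_dvd_iff.1 hd.1.1)
      refine ⟨d - 1, ?_, by omega⟩
      rw [mem_filter, mem_range]
      have h1 : d - 1 + 1 = d := by omega
      rw [h1]
      exact ⟨by omega, hd.1.1⟩
    · intro d _
      rfl
  have e2 : sig (m * m) = ∑ d ∈ (m * m).divisors,
      ((if d ≤ m then d else 0) + if d < m then m * m / d else 0) := by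
    have a1 : sig (m * m) = ∑ d ∈ (m * m).divisors,
        ((if d ≤ m then d else 0) + if d ≤ m then 0 else d) := by
      unfold sig
      refine Finset.sum_congr rfl fun d _ => ?_
      split_ifs <;> simp
    rw [a1, Finset.sum_add_distrib, Finset.sum_add_distrib]
    congr 1
    rw [← Nat.sum_div_divisors (m * m) (fun d => if d ≤ m then 0 else d)]
    refine Finset.sum_congr rfl fun d hd => ?_
    rw [Nat.mem_divisors] at hd
    obtain ⟨e, he⟩ := hd.1
    have hd0 : 0 < d := Nat.pos_of_dvd_of_pos hd.1 (by positivity)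
    have h3 : m * m / d = e := by rw [he, Nat.mul_div_cancel_left _ hd0]
    simp only [h3]
    by_cases hlt : d < m
    · rw [if_pos hlt, if_neg]
      intro hle
      have : d * e < m * m := by nlinarith
      omega
    · rw [if_neg hlt, if_pos]
      by_contra hc
      have : m * m < d * e := by nlinarith
      omega
  have e3 : ∑ d ∈ (m * m).divisors, (if d = m then m * m / d else 0) = m := by
    rw [Finset.sum_ite_eq' (m * m).divisors m (fun d => m * m / d), if_pos]
    · exact Nat.mul_div_cancel _ hm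
    · rw [Nat.mem_divisors]
      exact ⟨dvd_mul_right m m, hN⟩
  have e4 : sig (m * m) + m = sig (m * m) +
      ∑ d ∈ (m * m).divisors, (if d = m then m * m / d else 0) := by rw [e3]
  rw [e4, e1, e2, ← Finset.sum_add_distrib]
  refine Finset.sum_congr rfl fun d _ => ?_
  rcases lt_trichotomy d m with h | h | h
  · rw [if_pos h.le, if_pos h.le, if_pos h, if_neg h.ne]
    simp
  · rw [if_pos h.le, if_pos h.le, if_neg (by omega), if_pos h]
    simp
  · rw [if_neg (by omega), if_neg (by omega), if_neg (by omega), if_neg (by omega)]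

theorem noj_spec {N t J : ℕ} (h : noj N t J = true) {j : ℕ} (h1 : 1 ≤ j) (h2 : j ≤ J) :
    (2 ^ j - 1) * t + 1 ≠ N := by
  induction J with
  | zero => omega
  | succ J ih =>
    rw [noj, Bool.and_eq_true] at h
    rcases Nat.lt_or_ge J j with h3 | h3
    · obtain rfl : j = J + 1 := by omega
      intro hc
      have h4 := h.2
      rw [hc] at h4
      have h5 : Nat.beq N N = true := Nat.beq_refl N
      rw [h5] at h4
      exact absurd h4 (by decide)
    · exact ih h.1 h3

theorem chk_spec {L : ℕ} (h : chk L = true) {l : ℕ} (hl : l < L) :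
    noj ((2 * l + 3) * (2 * l + 3))
      (dsum ((2 * l + 3) * (2 * l + 3)) (2 * l + 3) - (2 * l + 3) - (2 * l + 3) * (2 * l + 3)) 16 =
        true := by
  induction L with
  | zero => omega
  | succ L ih =>
    rw [chk, Bool.and_eq_true] at h
    rcases Nat.lt_or_ge l L with h3 | h3
    · exact ih h.1 h3
    · obtain rfl : l = L := by omega
      exact h.2

theorem small {m j : ℕ} (hodd : Odd m) (h3 : 3 ≤ m) (hm : m ≤ 256) (h1 : 1 ≤ j) (h20 : j ≤ 16) :
    (2 ^ j - 1) * (sig (m * m) - m * m) + 1 ≠ m * m := by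
  obtain ⟨l, rfl⟩ : ∃ l, m = 2 * l + 3 := by
    obtain ⟨s, hs⟩ := hodd
    exact ⟨s - 1, by omega⟩
  have hl : l < 127 := by omega
  have h5 := noj_spec (chk_spec chk_ok hl) h1 h20
  rw [dsum_sq (by omega), Nat.add_sub_cancel] at h5
  exact h5

theorem isSquare_of_odd {u : ℕ} (hu : Odd u) (hs : Odd (sig u)) : ∃ m, u = m * m := by
  by_contra hc
  push Not at hc
  have hu0 : u ≠ 0 := by
    rintro rfl
    exact absurd hu (by decide)
  have hodd : ∀ d ∈ u.divisors, (d : ZMod 2) = 1 := by
    intro d hd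
    rw [Nat.mem_divisors] at hd
    have : Odd d := Odd.of_dvd_nat hu hd.1
    exact (ZMod.natCast_eq_one_iff_odd).2 this
  have key : ∑ d ∈ u.divisors, (d : ZMod 2) = 0 := by
    refine Finset.sum_involution (fun d _ => u / d) ?_ ?_ ?_ ?_
    · intro d hd
      have h1 : u / d ∈ u.divisors := by
        rw [Nat.mem_divisors] at hd ⊢
        exact ⟨Nat.div_dvd_of_dvd hd.1, hu0⟩
      rw [hodd d hd, hodd _ h1]
      decide
    · intro d hd _ h
      rw [Nat.mem_divisors] at hd
      have h2 := Nat.div_mul_cancel hd.1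
      rw [h] at h2
      exact hc d h2.symm
    · intro d hd
      rw [Nat.mem_divisors] at hd ⊢
      exact ⟨Nat.div_dvd_of_dvd hd.1, hu0⟩
    · intro d hd
      rw [Nat.mem_divisors] at hd
      exact Nat.div_div_self hd.1 hu0
  have h2 : ((sig u : ℕ) : ZMod 2) = 0 := by
    unfold sig
    rw [Nat.cast_sum]
    exact key
  rw [(ZMod.natCast_eq_one_iff_odd).2 hs] at h2
  exact absurd h2 (by decide)

theorem almostPerfect_small {k : ℕ} (hk : AlmostPerfect k) (hk1 : 1 ≤ k) (hk2 : k ≤ 2 ^ 16) :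
    ∃ j, k = 2 ^ j := by
  obtain ⟨i, u, hu, rfl⟩ := Nat.exists_eq_two_pow_mul_odd (n := k) (by omega)
  by_contra hc
  have hu1 : u ≠ 1 := by
    rintro rfl
    exact hc ⟨i, by rw [mul_one]⟩
  have hu0 : 0 < u := hu.pos
  have h2u : ¬ 2 ∣ u := fun h => by
    have := hu
    rw [← Nat.not_even_iff_odd] at this
    exact this (even_iff_two_dvd.2 h)
  have hcop : (2 ^ i).Coprime u :=
    Nat.Coprime.pow_left _ ((Nat.Prime.coprime_iff_not_dvd Nat.prime_two).2 h2u)
  unfold AlmostPerfect at hk
  rw [sig_mul_of_coprime hcop] at hk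
  have hs := sig_two_pow i
  obtain ⟨M, hM⟩ : ∃ M, 2 ^ (i + 1) = M + 1 := ⟨2 ^ (i + 1) - 1, by
    have : 1 ≤ 2 ^ (i + 1) := Nat.one_le_two_pow
    omega⟩
  have hs' : sig (2 ^ i) = M := by omega
  have hk' : M * sig u + 1 = (M + 1) * u := by
    rw [← hM, ← hs', hk]
    ring
  have hodd : Odd (sig u) := by
    rw [← Nat.not_even_iff_odd]
    intro he
    have h3 : Even (M * sig u) := he.mul_left M
    have h4 : Even ((M + 1) * u) := by
      rw [← hM, pow_succ]
      exact ⟨2 ^ i * u, by ring⟩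
    rw [← hk'] at h4
    rcases h3 with ⟨x, hx⟩
    rcases h4 with ⟨y, hy⟩
    omega
  obtain ⟨m, rfl⟩ := isSquare_of_odd hu hodd
  have hmodd : Odd m := Nat.Odd.of_mul_left hu
  have hm3 : 3 ≤ m := by
    rcases hmodd with ⟨s, hs⟩
    rcases Nat.lt_or_ge m 3 with h | h
    · exfalso
      have : m = 1 := by omega
      rw [this] at hu1
      exact hu1 rfl
    · exact h
  have h2i : 1 ≤ 2 ^ i := Nat.one_le_two_pow
  have hmm : m * m ≤ 2 ^ 16 := le_trans (Nat.le_mul_of_pos_left _ (by positivity)) hk2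
  have hm : m ≤ 256 := by
    by_contra hc2
    push Not at hc2
    have : 257 * 257 ≤ m * m := Nat.mul_le_mul hc2 hc2
    norm_num at hmm
    omega
  have hi : i + 1 ≤ 16 := by
    have h5 : 2 ^ (i + 1) ≤ 2 ^ 16 := by
      calc 2 ^ (i + 1) = 2 ^ i * 2 := pow_succ 2 i
        _ ≤ 2 ^ i * (m * m) := Nat.mul_le_mul_left _ (by nlinarith)
        _ ≤ 2 ^ 16 := hk2
    exact (Nat.pow_le_pow_iff_right (by norm_num)).1 h5
  refine small hmodd hm3 hm (by omega : 1 ≤ i + 1) hi ?_
  have hle : m * m ≤ sig (m * m) := by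
    have := succ_le_sig (n := m * m) (by nlinarith)
    omega
  obtain ⟨t, ht⟩ := Nat.exists_eq_add_of_le hle
  rw [ht] at hk'
  have e1 : 2 ^ (i + 1) - 1 = M := by omega
  rw [e1, ht, Nat.add_sub_cancel_left]
  have : M * (m * m + t) + 1 = M * (m * m) + (M * t + 1) := by ring
  have e2 : (M + 1) * (m * m) = M * (m * m) + m * m := by ring
  omega

theorem main {n : ℕ} (hn : 2 ≤ n) (h : ¬ (a n = 3 ∨ ∃ j, a n = 2 ^ j)) :
    2 ^ 16 < a n ∧ (2 ^ 17 - 1) * sig n < 2 ^ 17 * n ∧
      ∀ p : ℕ, p.Prime → p ∣ n → 2 ^ 17 ≤ p := by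
  have hadm := a_admissible hn
  have hAP : AlmostPerfect (a n) :=
    (a_eq_three_or_almostPerfect hn).resolve_left fun h3 => h (Or.inl h3)
  have hlt : 2 ^ 16 < a n := by
    by_contra hc
    push Not at hc
    exact h (Or.inr (almostPerfect_small hAP hadm.1 hc))
  have hodd : ¬ 2 ∣ n := by
    intro h2
    have h3 : a n ≤ 3 := a_le (admissible_three hn h2)
    have h4 : 3 < 2 ^ 16 := by norm_num
    omega
  have hs : (2 ^ 17 - 1) * sig n < 2 ^ 17 * n := by
    by_contra hc
    push Not at hc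
    have h5 : Admissible n (2 ^ 16) := (admissible_two_pow_iff hodd).2 hc
    have h6 := a_le h5
    omega
  refine ⟨hlt, hs, fun p hp hpn => ?_⟩
  by_contra hc
  push Not at hc
  obtain ⟨q, rfl⟩ := hpn
  have hq : 0 < q := by
    rcases Nat.eq_zero_or_pos q with h0 | h0
    · rw [h0, mul_zero] at hn
      omega
    · exact h0
  have hp2 := hp.two_le
  have h1 : p * q + q ≤ sig (p * q) := by
    unfold sig
    have hne : p * q ≠ q := by
      intro he
      have : 2 * q ≤ p * q := Nat.mul_le_mul_right q hp2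
      omega
    have hsub : ({p * q, q} : Finset ℕ) ⊆ (p * q).divisors := by
      intro x hx
      rw [Finset.mem_insert, Finset.mem_singleton] at hx
      rw [Nat.mem_divisors]
      refine ⟨?_, by omega⟩
      rcases hx with rfl | rfl
      · exact dvd_refl _
      · exact dvd_mul_left _ _
    calc p * q + q = ∑ d ∈ ({p * q, q} : Finset ℕ), d := by rw [Finset.sum_pair hne]
      _ ≤ _ := Finset.sum_le_sum_of_subset hsub
  have h2 : (2 ^ 17 - 1) * (p * q + q) ≤ (2 ^ 17 - 1) * sig (p * q) := Nat.mul_le_mul_left _ h1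
  have h3 : p * q ≤ (2 ^ 17 - 1) * q := Nat.mul_le_mul_right q (by omega)
  have h4 : (2 ^ 17 - 1) * (p * q + q) = (2 ^ 17 - 1) * (p * q) + (2 ^ 17 - 1) * q := by ring
  have h5 : 2 ^ 17 * (p * q) = (2 ^ 17 - 1) * (p * q) + p * q := by
    norm_num
    ring
  omega

end SmallPF
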